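import Mathlib
import Pool.Agent.V1129.Ech3

set_option autoImplicit false

/-!
An echelon subgroup `H` of the free group of rank two and a finitely generated subgroup `G`
(of rank three) such that `H ∩ G` is not echelon in `G`.
-/

namespace Pool.Agent.Results.MP_3ccc78_al.NotEchelon

open Pool.Agent.V1129.Ech

/-- the free group of rank two -/
abbrev F2 : Type := FreeGroup (Fin 2)
/-- the free group of rank three -/
abbrev E : Type := FreeGroup (Fin 3)

/-- letter -/
abbrev la : Fin 2 × Bool := (0, true)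
/-- letter -/
abbrev lA : Fin 2 × Bool := (0, false)
/-- letter -/
abbrev lb : Fin 2 × Bool := (1, true)
/-- letter -/
abbrev lB : Fin 2 × Bool := (1, false)

/-- the word `s` -/
def S : List (Fin 2 × Bool) :=
  [lB, lB, la, lb, la, lb, lb, lA, lb, lb, la, lB, lB, lA, lB, lA, lb, lb, la, lB, lB]

/-- `w = s a⁻¹` -/
def W : List (Fin 2 × Bool) := S ++ [lA]
/-- `a w a⁻¹` -/
def W1 : List (Fin 2 × Bool) := la :: (S ++ [lA, lA])

/-- the echelon subgroup `⟨a, s⟩` -/
def H : Subgroup F2 := Subgroup.closure {FreeGroup.of 0, FreeGroup.mk S}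

/-- the embedding of the free group of rank three:
`x ↦ a²b`, `y ↦ ba⁻²`, `z ↦ aba⁻¹` -/
def φ : E →* F2 :=
  FreeGroup.lift ![FreeGroup.mk [la, la, lb], FreeGroup.mk [lb, lA, lA], FreeGroup.mk [la, lb, lA]]

/-- the subgroup `G` -/
def G : Subgroup F2 := φ.range

/-- the automaton of `H` -/
def δH (s : Fin 21) (x : Fin 2 × Bool) : Option (Fin 21) :=
  match x with
  | (0, true) => ![some 0, none, some 3, none, some 5, none, none, none, some 7, none, some 11, none, none, none, some 13, none, some 15, none, some 19, none, none] s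
  | (0, false) => ![some 0, none, none, some 2, none, some 4, none, some 8, none, none, none, some 10, none, some 14, none, some 16, none, none, none, some 18, none] s
  | (1, true) => ![some 20, some 0, some 1, some 4, none, some 6, some 7, none, some 9, some 10, none, none, some 11, some 12, none, some 14, some 17, some 18, none, none, some 19] s
  | (1, false) => ![some 1, some 2, none, none, some 3, none, some 5, some 6, none, some 8, some 9, some 12, some 13, none, some 15, none, none, some 16, some 17, some 20, some 0] s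

/-- the automaton of `G` -/
def δG (s : Fin 3) (x : Fin 2 × Bool) : Option (Fin 3) :=
  match x with
  | (0, true) => ![some 1, some 2, none] s
  | (0, false) => ![none, some 0, some 1] s
  | (1, true) => ![some 2, some 1, some 0] s
  | (1, false) => ![some 2, some 1, some 0] s

/-- the potential -/
def pot (s : Fin 21) (s' : Fin 3) : Option (List (Fin 2 × Bool)) :=
  (![
    ![some [], some [la], some [la, la]],
    ![some [la, la, lB], some [la, lB], some [lB]],
    ![some [lB, lB], some [la, lB, lB], some [la, la, lB, lB]],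
    ![none, some [lB, lB, la], some [la, lB, lB, la]],
    ![some [la, lB, lB, la, lb], some [lB, lB, la, lb], none],
    ![none, some [la, lB, lB, la, lb, la], some [lB, lB, la, lb, la]],
    ![some [lB, lB, la, lb, la, lb], some [la, lB, lB, la, lb, la, lb], none],
    ![none, some [la, lB, lB, la, lb, la, lb, lb], some [lB, lB, la, lb, la, lb, lb]],
    ![some [la, lB, lB, la, lb, la, lb, lb, lA], some [lB, lB, la, lb, la, lb, lb, lA], none],
    ![none, some [lB, lB, la, lb, la, lb, lb, lA, lb], some [la, lB, lB, la, lb, la, lb, lb, lA, lb]],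
    ![some [la, lB, lB, la, lb, la, lb, lb, lA, lb, lb], some [lB, lB, la, lb, la, lb, lb, lA, lb, lb], none],
    ![none, some [la, la, lb, lb, lA, lB, lB, la, lb, la, lb, lb], some [la, lb, lb, lA, lB, lB, la, lb, la, lb, lb]],
    ![some [la, lb, lb, lA, lB, lB, la, lb, la, lb], some [la, la, lb, lb, lA, lB, lB, la, lb, la, lb], none],
    ![none, some [la, la, lb, lb, lA, lB, lB, la, lb, la], some [la, lb, lb, lA, lB, lB, la, lb, la]],
    ![some [la, la, lb, lb, lA, lB, lB, la, lb], some [la, lb, lb, lA, lB, lB, la, lb], none],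
    ![none, some [la, lb, lb, lA, lB, lB, la], some [la, la, lb, lb, lA, lB, lB, la]],
    ![some [la, lb, lb, lA, lB, lB], some [la, la, lb, lb, lA, lB, lB], none],
    ![none, some [la, la, lb, lb, lA, lB], some [la, lb, lb, lA, lB]],
    ![some [la, lb, lb, lA], some [la, la, lb, lb, lA], none],
    ![some [lb, lb], some [la, lb, lb], some [la, la, lb, lb]],
    ![some [la, la, lb], some [la, lb], some [lb]]] : Fin 21 → Fin 3 → Option (List (Fin 2 × Bool))) s s'

lemma δH_inv : ∀ s x b t, δH s (x, b) = some t → δH t (x, !b) = some s := by decide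
lemma δG_inv : ∀ s x b t, δG s (x, b) = some t → δG t (x, !b) = some s := by decide

/-- the check of the potential -/
def chk (s : Fin 21) (s' : Fin 3) (x : Fin 2 × Bool) : Bool :=
  match pot s s', δH s x, δG s' x with
  | some q, some t, some t' =>
    match pot t t' with
    | some q' => decide (FreeGroup.reduce (q ++ [x] ++ FreeGroup.invRev q') ∈
        [[], W, FreeGroup.invRev W, W1, FreeGroup.invRev W1])
    | none => false
  | _, _, _ => true

lemma chk_all : ∀ s s' x, chk s s' x = true := by decide +kernel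

/-- the group generated by `w` and `a w a⁻¹` -/
def K0 : Subgroup F2 := Subgroup.closure {FreeGroup.mk W, FreeGroup.mk W1}

lemma mem_K0 {L : List (Fin 2 × Bool)}
    (h : L ∈ [[], W, FreeGroup.invRev W, W1, FreeGroup.invRev W1]) :
    (FreeGroup.mk L : F2) ∈ K0 := by
  have hW : (FreeGroup.mk W : F2) ∈ K0 := Subgroup.subset_closure (by simp)
  have hW1 : (FreeGroup.mk W1 : F2) ∈ K0 := Subgroup.subset_closure (by simp)
  simp only [List.mem_cons, List.not_mem_nil, or_false] at h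
  rcases h with rfl | rfl | rfl | rfl | rfl
  · exact one_mem _
  · exact hW
  · rw [← FreeGroup.inv_mk]; exact inv_mem hW
  · exact hW1
  · rw [← FreeGroup.inv_mk]; exact inv_mem hW1

lemma pot_step (s : Fin 21) (s' : Fin 3) (x : Fin 2 × Bool) (t : Fin 21) (t' : Fin 3) (q : F2)
    (h1 : (pot s s').map FreeGroup.mk = some q)
    (h2 : δH s x = some t) (h3 : δG s' x = some t') :
    ∃ q', (pot t t').map FreeGroup.mk = some q' ∧ q * FreeGroup.mk [x] * q'⁻¹ ∈ K0 := by
  have h := chk_all s s' x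
  rw [Option.map_eq_some_iff] at h1
  obtain ⟨Lq, h1, rfl⟩ := h1
  rw [chk, h1, h2, h3] at h
  simp only at h
  cases h4 : pot t t' with
  | none => rw [h4] at h; exact absurd h (by simp)
  | some L' =>
    rw [h4] at h
    simp only [decide_eq_true_eq] at h
    refine ⟨FreeGroup.mk L', rfl, ?_⟩
    rw [FreeGroup.inv_mk, FreeGroup.mul_mk, FreeGroup.mul_mk, ← FreeGroup.reduce.self]
    exact mem_K0 h

lemma reads_H (k : F2) (hk : k ∈ H) : Reads δH 0 k.toWord 0 := by
  refine reads_closure δH_inv ?_ hk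
  intro g hg
  simp only [Set.mem_insert_iff, Set.mem_singleton_iff] at hg
  rcases hg with rfl | rfl
  · exact ⟨[la], rfl, .cons (t := 0) rfl (.nil _)⟩
  · refine ⟨S, rfl, ?_⟩
    repeat (first | exact .nil _ | refine .cons rfl ?_)

lemma reads_G (k : F2) (hk : k ∈ G) : Reads δG 0 k.toWord 0 := by
  rw [G, φ, FreeGroup.range_lift_eq_closure] at hk
  refine reads_closure δG_inv ?_ hk
  rintro g ⟨i, rfl⟩
  fin_cases i
  · refine ⟨[la, la, lb], rfl, ?_⟩
    repeat (first | exact .nil _ | refine .cons rfl ?_)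
  · refine ⟨[lb, lA, lA], rfl, ?_⟩
    repeat (first | exact .nil _ | refine .cons rfl ?_)
  · refine ⟨[la, lb, lA], rfl, ?_⟩
    repeat (first | exact .nil _ | refine .cons rfl ?_)

lemma inter_le (k : F2) (h1 : k ∈ H) (h2 : k ∈ G) : k ∈ K0 := by
  have h0 : (pot 0 0).map FreeGroup.mk = some (1 : F2) := rfl
  obtain ⟨q', hq', h⟩ := potential_coset K0 (fun s s' => (pot s s').map FreeGroup.mk)
    pot_step (reads_H k h1) (reads_G k h2) h0
  have h3 : q' = 1 := Option.some.inj (hq'.symm.trans h0)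
  rwa [FreeGroup.mk_toWord, one_mul, h3, inv_one, mul_one] at h

/-! ### `H` is echelon -/

lemma H_inj : Function.Injective (FreeGroup.lift ![FreeGroup.of 0, FreeGroup.mk S] : F2 →* F2) := by
  have h1 : (![FreeGroup.of 0, FreeGroup.mk S] : Fin 2 → F2) =
      fun i => FreeGroup.mk ((![[la], S] : Fin 2 → List (Fin 2 × Bool)) i) := by
    funext i
    fin_cases i <;> rfl
  rw [h1]
  refine lift_injective _ ?_ ?_
  · intro i
    fin_cases i
    · simp
    · simp [S]
  · rintro ⟨i, c⟩ ⟨j, d⟩ h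
    simp only at h
    fin_cases i <;> fin_cases j <;> cases c <;> cases d <;>
      first
      | (unfold FreeGroup.IsReduced; decide)
      | exact absurd (h rfl) (by decide)

lemma H_echelon : Echelon H := echelon_pair _ H_inj

/-! ### `φ` is injective -/

/-- states -/
def sA : Equiv.Perm (Fin 3) := Equiv.swap 0 1 * Equiv.swap 0 2

/-- action of `a`; `0 = G`, `1 = a⁻¹G`, `2 = a⁻²G` -/
def PA : Equiv.Perm (E × Fin 3) where
  toFun p := (p.1, sA p.2)
  invFun p := (p.1, sA⁻¹ p.2)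
  left_inv := by rintro ⟨g, s⟩; simp
  right_inv := by rintro ⟨g, s⟩; simp

/-- action of `b` -/
def PB : Equiv.Perm (E × Fin 3) where
  toFun p := ((![FreeGroup.of 0, FreeGroup.of 2, FreeGroup.of 1] : Fin 3 → E) p.2 * p.1,
    Equiv.swap 0 2 p.2)
  invFun p := (((![FreeGroup.of 0, FreeGroup.of 2, FreeGroup.of 1] : Fin 3 → E)
    (Equiv.swap 0 2 p.2))⁻¹ * p.1, Equiv.swap 0 2 p.2)
  left_inv := by rintro ⟨g, s⟩; simp
  right_inv := by rintro ⟨g, s⟩; simp

/-- the action -/
def Φ : F2 →* Equiv.Perm (E × Fin 3) := FreeGroup.lift ![PA, PB]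

lemma Φa : Φ (FreeGroup.of 0) = PA := by simp [Φ]
lemma Φb : Φ (FreeGroup.of 1) = PB := by simp [Φ]
lemma PA_apply (g : E) (s : Fin 3) : PA (g, s) = (g, sA s) := rfl
lemma PAi_apply (g : E) (s : Fin 3) : PA⁻¹ (g, s) = (g, sA⁻¹ s) := rfl
lemma PB_apply (g : E) (s : Fin 3) :
    PB (g, s) = ((![FreeGroup.of 0, FreeGroup.of 2, FreeGroup.of 1] : Fin 3 → E) s * g,
      Equiv.swap 0 2 s) := rfl

lemma e1 : sA 1 = 0 := by decide
lemma e2 : sA 2 = 1 := by decide
lemma e3 : sA⁻¹ 0 = 1 := by decide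
lemma e4 : sA⁻¹ 1 = 2 := by decide
lemma e5 : Equiv.swap (0 : Fin 3) 2 0 = 2 := by decide
lemma e6 : Equiv.swap (0 : Fin 3) 2 1 = 1 := by decide
lemma e7 : Equiv.swap (0 : Fin 3) 2 2 = 0 := by decide

lemma Φφ_gen (i : Fin 3) (g : E) : Φ (φ (FreeGroup.of i)) (g, 0) = (FreeGroup.of i * g, 0) := by
  fin_cases i
  · have h : φ (FreeGroup.of 0) = FreeGroup.of 0 * FreeGroup.of 0 * FreeGroup.of 1 := rfl
    show Φ (φ (FreeGroup.of 0)) (g, 0) = _
    rw [h, map_mul, map_mul, Φa, Φb, Equiv.Perm.mul_apply, Equiv.Perm.mul_apply, PB_apply, e5,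
      PA_apply _ 2, e2, PA_apply _ 1, e1]
    rfl
  · have h : φ (FreeGroup.of 1) = FreeGroup.of 1 * (FreeGroup.of 0)⁻¹ * (FreeGroup.of 0)⁻¹ := rfl
    show Φ (φ (FreeGroup.of 1)) (g, 0) = _
    rw [h, map_mul, map_mul, map_inv, Φa, Φb, Equiv.Perm.mul_apply, Equiv.Perm.mul_apply,
      PAi_apply _ 0, e3, PAi_apply _ 1, e4, PB_apply, e7]
    rfl
  · have h : φ (FreeGroup.of 2) = FreeGroup.of 0 * FreeGroup.of 1 * (FreeGroup.of 0)⁻¹ := rfl
    show Φ (φ (FreeGroup.of 2)) (g, 0) = _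
    rw [h, map_mul, map_mul, map_inv, Φa, Φb, Equiv.Perm.mul_apply, Equiv.Perm.mul_apply,
      PAi_apply, e3, PB_apply, e6, PA_apply, e1]
    rfl

lemma Φφ (u g : E) : Φ (φ u) (g, 0) = (u * g, 0) := by
  induction u using FreeGroup.induction_on generalizing g with
  | C1 => simp
  | of i => exact Φφ_gen i g
  | inv_of i h =>
    rw [map_inv, map_inv, Equiv.Perm.inv_eq_iff_eq, h]
    simp
  | mul x y hx hy =>
    rw [map_mul, map_mul, Equiv.Perm.mul_apply, hy, hx, mul_assoc]

lemma φ_inj : Function.Injective φ := by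
  rw [injective_iff_map_eq_one]
  intro u hu
  have h1 := Φφ u 1
  rw [hu, map_one, Equiv.Perm.one_apply, mul_one] at h1
  exact (congrArg Prod.fst h1).symm

/-! ### The intersection, inside the free group of rank three -/

/-- commutator -/
def cm {X : Type*} [Group X] (g h : X) : X := g * h * g⁻¹ * h⁻¹

/-- first generator of the intersection -/
def u0 {X : Type*} [Group X] (x y z : X) : X := cm (cm (y * x)⁻¹ (z * y⁻¹)) (z * z)
/-- second generator of the intersection -/
def u1 {X : Type*} [Group X] (x y z : X) : X := cm (cm (z * z)⁻¹ (x * z⁻¹)) (x * y)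

/-- `x` -/
abbrev gx : E := FreeGroup.of 0
/-- `y` -/
abbrev gy : E := FreeGroup.of 1
/-- `z` -/
abbrev gz : E := FreeGroup.of 2

lemma map_u0 {X Y : Type*} [Group X] [Group Y] (f : X →* Y) (x y z : X) :
    f (u0 x y z) = u0 (f x) (f y) (f z) := by
  simp [u0, cm]

lemma map_u1 {X Y : Type*} [Group X] [Group Y] (f : X →* Y) (x y z : X) :
    f (u1 x y z) = u1 (f x) (f y) (f z) := by
  simp [u1, cm]

lemma φ_u0 : φ (u0 gx gy gz) = FreeGroup.mk W := by
  rw [map_u0]
  have h0 : φ gx = FreeGroup.mk [la, la, lb] := rfl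
  have h1 : φ gy = FreeGroup.mk [lb, lA, lA] := rfl
  have h2 : φ gz = FreeGroup.mk [la, lb, lA] := rfl
  rw [h0, h1, h2]
  decide +kernel

lemma φ_u1 : φ (u1 gx gy gz) = FreeGroup.mk W1 := by
  rw [map_u1]
  have h0 : φ gx = FreeGroup.mk [la, la, lb] := rfl
  have h1 : φ gy = FreeGroup.mk [lb, lA, lA] := rfl
  have h2 : φ gz = FreeGroup.mk [la, lb, lA] := rfl
  rw [h0, h1, h2]
  decide +kernel

/-- the intersection as a subgroup of the free group of rank three -/
def KE : Subgroup E := H.comap φ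

lemma KE_eq : KE = Subgroup.closure {u0 gx gy gz, u1 gx gy gz} := by
  apply le_antisymm
  · intro g hg
    have h1 : φ g ∈ K0 := inter_le _ hg ⟨g, rfl⟩
    have h2 : K0 = (Subgroup.closure {u0 gx gy gz, u1 gx gy gz}).map φ := by
      rw [MonoidHom.map_closure, Set.image_pair, φ_u0, φ_u1]
      rfl
    rw [h2] at h1
    obtain ⟨u, hu, hug⟩ := h1
    rwa [← φ_inj hug]
  · rw [Subgroup.closure_le]
    have ha : (FreeGroup.of 0 : F2) ∈ H := Subgroup.subset_closure (by simp)
    have hS : (FreeGroup.mk S : F2) ∈ H := Subgroup.subset_closure (by simp)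
    rintro g (rfl | rfl)
    · show φ _ ∈ H
      rw [φ_u0]
      have h1 : (FreeGroup.mk W : F2) = FreeGroup.mk S * (FreeGroup.of 0)⁻¹ := rfl
      rw [h1]
      exact mul_mem hS (inv_mem ha)
    · show φ _ ∈ H
      rw [φ_u1]
      have h1 : (FreeGroup.mk W1 : F2) = FreeGroup.of 0 * (FreeGroup.mk S *
        (FreeGroup.of 0)⁻¹ * (FreeGroup.of 0)⁻¹) := rfl
      rw [h1]
      exact mul_mem ha (mul_mem (mul_mem hS (inv_mem ha)) (inv_mem ha))

/-! ### Unitriangular matrices -/

/-- upper unitriangular `4 × 4` matrices over `ZMod 3` -/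
@[ext] structure U4 where
  a : ZMod 3
  b : ZMod 3
  c : ZMod 3
  d : ZMod 3
  e : ZMod 3
  f : ZMod 3

namespace U4

instance : Mul U4 := ⟨fun x y => ⟨x.a + y.a, x.b + y.b, x.c + y.c, x.d + y.d + x.a * y.b,
  x.e + y.e + x.b * y.c, x.f + y.f + x.a * y.e + x.d * y.c⟩⟩
instance : One U4 := ⟨⟨0, 0, 0, 0, 0, 0⟩⟩
instance : Inv U4 := ⟨fun x => ⟨-x.a, -x.b, -x.c, -x.d + x.a * x.b, -x.e + x.b * x.c,
  -x.f + x.a * x.e + x.d * x.c - x.a * x.b * x.c⟩⟩

@[simp] lemma mul_a (x y : U4) : (x * y).a = x.a + y.a := rfl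
@[simp] lemma mul_b (x y : U4) : (x * y).b = x.b + y.b := rfl
@[simp] lemma mul_c (x y : U4) : (x * y).c = x.c + y.c := rfl
@[simp] lemma mul_d (x y : U4) : (x * y).d = x.d + y.d + x.a * y.b := rfl
@[simp] lemma mul_e (x y : U4) : (x * y).e = x.e + y.e + x.b * y.c := rfl
@[simp] lemma mul_f (x y : U4) : (x * y).f = x.f + y.f + x.a * y.e + x.d * y.c := rfl
@[simp] lemma one_a : (1 : U4).a = 0 := rfl
@[simp] lemma one_b : (1 : U4).b = 0 := rfl
@[simp] lemma one_c : (1 : U4).c = 0 := rfl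
@[simp] lemma one_d : (1 : U4).d = 0 := rfl
@[simp] lemma one_e : (1 : U4).e = 0 := rfl
@[simp] lemma one_f : (1 : U4).f = 0 := rfl
@[simp] lemma inv_a (x : U4) : (x⁻¹).a = -x.a := rfl
@[simp] lemma inv_b (x : U4) : (x⁻¹).b = -x.b := rfl
@[simp] lemma inv_c (x : U4) : (x⁻¹).c = -x.c := rfl
@[simp] lemma inv_d (x : U4) : (x⁻¹).d = -x.d + x.a * x.b := rfl
@[simp] lemma inv_e (x : U4) : (x⁻¹).e = -x.e + x.b * x.c := rfl
@[simp] lemma inv_f (x : U4) :
    (x⁻¹).f = -x.f + x.a * x.e + x.d * x.c - x.a * x.b * x.c := rfl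

instance : Group U4 :=
  Group.ofLeftAxioms
    (by intro x y z; ext <;> simp <;> ring)
    (by intro x; ext <;> simp)
    (by intro x; ext <;> simp <;> ring)

/-- the corner entry of a triple commutator -/
def tau (x y z : U4) : ZMod 3 :=
  (x.a * y.b - y.a * x.b) * z.c - z.a * (x.b * y.c - y.b * x.c)

lemma cm_cm (x y z : U4) : cm (cm x y) z = ⟨0, 0, 0, 0, 0, tau x y z⟩ := by
  ext <;> simp [cm, tau] <;> ring

end U4

/-- the coefficient group -/
abbrev M : Type := Multiplicative (ZMod 3)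

/-- corner entry for `u0` -/
def T0 (p q r : Fin 3 → ZMod 3) : ZMod 3 :=
  U4.tau ⟨-(p 1 + p 0), -(q 1 + q 0), -(r 1 + r 0), 0, 0, 0⟩
    ⟨p 2 - p 1, q 2 - q 1, r 2 - r 1, 0, 0, 0⟩ ⟨p 2 + p 2, q 2 + q 2, r 2 + r 2, 0, 0, 0⟩

/-- corner entry for `u1` -/
def T1 (p q r : Fin 3 → ZMod 3) : ZMod 3 :=
  U4.tau ⟨-(p 2 + p 2), -(q 2 + q 2), -(r 2 + r 2), 0, 0, 0⟩
    ⟨p 0 - p 2, q 0 - q 2, r 0 - r 2, 0, 0, 0⟩ ⟨p 0 + p 1, q 0 + q 1, r 0 + r 1, 0, 0, 0⟩

/-- unit vector -/
def ev (i : Fin 3) : Fin 3 → ZMod 3 := fun j => if j = i then 1 else 0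

lemma finite_check : ∀ p0 p1 p2 m n : ZMod 3,
    (∀ i j : Fin 3, m * T0 ![p0, p1, p2] (ev i) (ev j) + n * T1 ![p0, p1, p2] (ev i) (ev j) = 0) →
    (p0 = 0 ∧ p1 = 0 ∧ p2 = 0) ∨ (m = 0 ∧ n = 0) := by
  decide +kernel

lemma hom_ext_basis {n : ℕ} {v : Fin n → E} (hv : IsBasis v) {N : Type*} [Group N]
    {f g : E →* N} (h : ∀ i, f (v i) = g (v i)) : f = g := by
  have h1 : f.comp (FreeGroup.lift v) = g.comp (FreeGroup.lift v) := by
    ext i
    simp [h]
  ext x
  obtain ⟨y, hy⟩ := hv.2 (FreeGroup.of x)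
  rw [← hy]
  exact DFunLike.congr_fun h1 y

section Main

variable {v : Fin 3 → E} (hv : IsBasis v)

/-- hom with prescribed values on a basis -/
noncomputable def homOf (hv : IsBasis v) {N : Type*} [Group N] (c : Fin 3 → N) : E →* N :=
  (FreeGroup.lift c).comp (MulEquiv.ofBijective (FreeGroup.lift v) hv).symm.toMonoidHom

lemma homOf_apply {N : Type*} [Group N] (c : Fin 3 → N) (i : Fin 3) : homOf hv c (v i) = c i := by
  have h : (MulEquiv.ofBijective (FreeGroup.lift v) hv).symm (v i) = FreeGroup.of i := by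
    rw [MulEquiv.symm_apply_eq]
    show v i = FreeGroup.lift v (FreeGroup.of i)
    simp
  show FreeGroup.lift c ((MulEquiv.ofBijective (FreeGroup.lift v) hv).symm (v i)) = c i
  rw [h, FreeGroup.lift_apply_of]

/-- the hom dual to the last basis element -/
noncomputable def ψ : E →* M := homOf hv (fun i => Multiplicative.ofAdd (if i = 2 then 1 else 0))

/-- hom with given values on the standard basis -/
def std (q : Fin 3 → ZMod 3) : E →* M := FreeGroup.lift (fun i => Multiplicative.ofAdd (q i))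

/-- the representation -/
noncomputable def ρ (q r : Fin 3 → ZMod 3) : E →* U4 :=
  homOf hv (fun i => ⟨Multiplicative.toAdd (ψ hv (v i)), Multiplicative.toAdd (std q (v i)),
    Multiplicative.toAdd (std r (v i)), 0, 0, 0⟩)

/-- projections of `U4` -/
def πa : U4 →* M := ⟨⟨fun x => Multiplicative.ofAdd x.a, rfl⟩, fun _ _ => rfl⟩
/-- projections of `U4` -/
def πb : U4 →* M := ⟨⟨fun x => Multiplicative.ofAdd x.b, rfl⟩, fun _ _ => rfl⟩
/-- projections of `U4` -/
def πc : U4 →* M := ⟨⟨fun x => Multiplicative.ofAdd x.c, rfl⟩, fun _ _ => rfl⟩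

lemma ρ_a (q r : Fin 3 → ZMod 3) (g : E) :
    (ρ hv q r g).a = Multiplicative.toAdd (ψ hv g) := by
  have h : πa.comp (ρ hv q r) = ψ hv := by
    apply hom_ext_basis hv
    intro i
    show πa (homOf hv _ (v i)) = _
    rw [homOf_apply]
    rfl
  exact congrArg Multiplicative.toAdd (DFunLike.congr_fun h g)

lemma ρ_b (q r : Fin 3 → ZMod 3) (g : E) :
    (ρ hv q r g).b = Multiplicative.toAdd (std q g) := by
  have h : πb.comp (ρ hv q r) = std q := by
    apply hom_ext_basis hv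
    intro i
    show πb (homOf hv _ (v i)) = _
    rw [homOf_apply]
    rfl
  exact congrArg Multiplicative.toAdd (DFunLike.congr_fun h g)

lemma ρ_c (q r : Fin 3 → ZMod 3) (g : E) :
    (ρ hv q r g).c = Multiplicative.toAdd (std r g) := by
  have h : πc.comp (ρ hv q r) = std r := by
    apply hom_ext_basis hv
    intro i
    show πc (homOf hv _ (v i)) = _
    rw [homOf_apply]
    rfl
  exact congrArg Multiplicative.toAdd (DFunLike.congr_fun h g)

lemma ρ_flag (q r : Fin 3 → ZMod 3) (g : E) (hg : g ∈ flag v 2) :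
    (ρ hv q r g).a = 0 ∧ (ρ hv q r g).d = 0 ∧ (ρ hv q r g).f = 0 := by
  induction hg using Subgroup.closure_induction with
  | mem g hg =>
    obtain ⟨i, hi, rfl⟩ := hg
    have h1 : ρ hv q r (v i) = ⟨Multiplicative.toAdd (ψ hv (v i)),
        Multiplicative.toAdd (std q (v i)), Multiplicative.toAdd (std r (v i)), 0, 0, 0⟩ := by
      rw [ρ, homOf_apply]
    have h2 : Multiplicative.toAdd (ψ hv (v i)) = 0 := by
      rw [ψ, homOf_apply, toAdd_ofAdd, if_neg]
      rintro rfl
      exact absurd hi (by simp)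
    rw [h1]
    exact ⟨h2, rfl, rfl⟩
  | one => rw [map_one]; exact ⟨rfl, rfl, rfl⟩
  | mul x y _ _ hx hy =>
    obtain ⟨h1, h2, h3⟩ := hx
    obtain ⟨h4, h5, h6⟩ := hy
    rw [map_mul]
    simp [h1, h2, h3, h4, h5, h6]
  | inv x _ hx =>
    obtain ⟨h1, h2, h3⟩ := hx
    rw [map_inv]
    simp [h1, h2, h3]

/-- the values of `ψ` on the standard basis -/
noncomputable def pv : Fin 3 → ZMod 3 := fun i => Multiplicative.toAdd (ψ hv (FreeGroup.of i))

lemma std_of (q : Fin 3 → ZMod 3) (i : Fin 3) :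
    Multiplicative.toAdd (std q (FreeGroup.of i)) = q i := by
  simp [std]

lemma tau_congr {x y z x' y' z' : U4} (h1 : x.a = x'.a) (h2 : x.b = x'.b) (h3 : x.c = x'.c)
    (h4 : y.a = y'.a) (h5 : y.b = y'.b) (h6 : y.c = y'.c) (h7 : z.a = z'.a) (h8 : z.b = z'.b)
    (h9 : z.c = z'.c) : U4.tau x y z = U4.tau x' y' z' := by
  simp only [U4.tau, h1, h2, h3, h4, h5, h6, h7, h8, h9]

lemma ρ_u0 (q r : Fin 3 → ZMod 3) :
    ρ hv q r (u0 gx gy gz) = ⟨0, 0, 0, 0, 0, T0 (pv hv) q r⟩ := by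
  rw [map_u0, u0, U4.cm_cm, T0]
  congr 1
  apply tau_congr <;>
  simp only [U4.inv_a, U4.inv_b, U4.inv_c, U4.mul_a, U4.mul_b, U4.mul_c, ρ_a, ρ_b, ρ_c, std_of,
    pv, sub_eq_add_neg]

lemma ρ_u1 (q r : Fin 3 → ZMod 3) :
    ρ hv q r (u1 gx gy gz) = ⟨0, 0, 0, 0, 0, T1 (pv hv) q r⟩ := by
  rw [map_u1, u1, U4.cm_cm, T1]
  congr 1
  apply tau_congr <;>
  simp only [U4.inv_a, U4.inv_b, U4.inv_c, U4.mul_a, U4.mul_b, U4.mul_c, ρ_a, ρ_b, ρ_c, std_of,
    pv, sub_eq_add_neg]

lemma u0_mem : u0 gx gy gz ∈ KE := by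
  rw [KE_eq]; exact Subgroup.subset_closure (by simp)

lemma u1_mem : u1 gx gy gz ∈ KE := by
  rw [KE_eq]; exact Subgroup.subset_closure (by simp)

lemma ρ_KE (q r : Fin 3 → ZMod 3) (g : E) (hg : g ∈ KE) :
    (ρ hv q r g).a = 0 ∧ (ρ hv q r g).d = 0 := by
  rw [KE_eq] at hg
  induction hg using Subgroup.closure_induction with
  | mem g hg =>
    rcases hg with rfl | rfl
    · rw [ρ_u0]; exact ⟨rfl, rfl⟩
    · rw [ρ_u1]; exact ⟨rfl, rfl⟩
  | one => rw [map_one]; exact ⟨rfl, rfl⟩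
  | mul x y _ _ hx hy =>
    obtain ⟨h1, h2⟩ := hx
    obtain ⟨h4, h5⟩ := hy
    rw [map_mul]
    simp [h1, h2, h4, h5]
  | inv x _ hx =>
    obtain ⟨h1, h2⟩ := hx
    rw [map_inv]
    simp [h1, h2]

/-- the corner homomorphism -/
noncomputable def χ (q r : Fin 3 → ZMod 3) : KE →* M where
  toFun k := Multiplicative.ofAdd (ρ hv q r k).f
  map_one' := by
    show Multiplicative.ofAdd (ρ hv q r 1).f = 1
    rw [map_one]
    rfl
  map_mul' := by
    intro k k'
    obtain ⟨h1, h2⟩ := ρ_KE hv q r k k.2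
    show Multiplicative.ofAdd (ρ hv q r (k * k')).f = _
    rw [map_mul, U4.mul_f, h1, h2, zero_mul, zero_mul, add_zero, add_zero]
    rfl

lemma exponents (k : E) (hk : k ∈ KE) : ∃ m n : ℤ, ∀ (f : KE →* M) (hk : k ∈ KE),
    f ⟨k, hk⟩ = f ⟨_, u0_mem⟩ ^ m * f ⟨_, u1_mem⟩ ^ n := by
  have hk' := hk
  rw [KE_eq] at hk'
  induction hk' using Subgroup.closure_induction with
  | mem g hg =>
    rcases hg with rfl | rfl
    · exact ⟨1, 0, fun f hk => by simp⟩
    · exact ⟨0, 1, fun f hk => by simp⟩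
  | one =>
    refine ⟨0, 0, fun f hk => ?_⟩
    rw [zpow_zero, zpow_zero, mul_one]
    exact map_one f
  | mul x y hx hy ihx ihy =>
    rw [← KE_eq] at hx hy
    obtain ⟨m, n, h⟩ := ihx hx
    obtain ⟨m', n', h'⟩ := ihy hy
    refine ⟨m + m', n + n', fun f hk => ?_⟩
    have h1 : (⟨x * y, hk⟩ : KE) = ⟨x, hx⟩ * ⟨y, hy⟩ := rfl
    rw [h1, map_mul, h f hx, h' f hy, zpow_add, zpow_add, mul_mul_mul_comm]
  | inv x hx ih =>
    rw [← KE_eq] at hx
    obtain ⟨m, n, h⟩ := ih hx
    refine ⟨-m, -n, fun f hk => ?_⟩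
    have h1 : (⟨x⁻¹, hk⟩ : KE) = (⟨x, hx⟩)⁻¹ := rfl
    rw [h1, map_inv, h f hx, zpow_neg, zpow_neg, mul_inv]

include hv in
/-- no homomorphism to `ℤ/3` is nontrivial on `KE ∩ ⟨v 0, v 1⟩` -/
lemma key (f : KE →* M) (d : E) (hd : d ∈ KE) (hd' : d ∈ flag v 2) : f ⟨d, hd⟩ = 1 := by
  obtain ⟨m, n, hmn⟩ := exponents d hd
  have h1 : ∀ i j : Fin 3, (m : ZMod 3) * T0 (pv hv) (ev i) (ev j) +
      (n : ZMod 3) * T1 (pv hv) (ev i) (ev j) = 0 := by
    intro i j
    have h2 := hmn (χ hv (ev i) (ev j)) hd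
    have h3 : χ hv (ev i) (ev j) ⟨d, hd⟩ = 1 := by
      show Multiplicative.ofAdd (ρ hv (ev i) (ev j) d).f = 1
      rw [(ρ_flag hv (ev i) (ev j) d hd').2.2]
      rfl
    have h4 : χ hv (ev i) (ev j) ⟨_, u0_mem⟩ = Multiplicative.ofAdd (T0 (pv hv) (ev i) (ev j)) := by
      show Multiplicative.ofAdd (ρ hv (ev i) (ev j) _).f = _
      rw [ρ_u0]
    have h5 : χ hv (ev i) (ev j) ⟨_, u1_mem⟩ = Multiplicative.ofAdd (T1 (pv hv) (ev i) (ev j)) := by
      show Multiplicative.ofAdd (ρ hv (ev i) (ev j) _).f = _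
      rw [ρ_u1]
    rw [h3, h4, h5] at h2
    have h6 := congrArg Multiplicative.toAdd h2
    rw [toAdd_mul, toAdd_zpow, toAdd_zpow, toAdd_one, toAdd_ofAdd, toAdd_ofAdd, zsmul_eq_mul,
      zsmul_eq_mul] at h6
    exact h6.symm
  have hpv : pv hv = ![pv hv 0, pv hv 1, pv hv 2] := by
    funext i
    fin_cases i <;> rfl
  rw [hpv] at h1
  rcases finite_check _ _ _ _ _ h1 with ⟨h2, h3, h4⟩ | ⟨h2, h3⟩
  · exfalso
    have h5 : ψ hv = 1 := by
      ext i
      have : ∀ i, pv hv i = 0 := by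
        intro i
        fin_cases i
        · exact h2
        · exact h3
        · exact h4
      exact this i
    have h6 : ψ hv (v 2) = Multiplicative.ofAdd 1 := by
      rw [ψ, homOf_apply, if_pos rfl]
    rw [h5, MonoidHom.one_apply] at h6
    exact absurd h6 (by decide)
  · rw [hmn f hd]
    apply Multiplicative.toAdd.injective
    rw [toAdd_mul, toAdd_zpow, toAdd_zpow, toAdd_one, zsmul_eq_mul, zsmul_eq_mul, h2, h3]
    simp

end Main

lemma KE_not_echelon : ¬ Echelon KE := by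
  rintro ⟨n, v, hv, hK⟩
  obtain rfl : n = 3 := card_basis v hv
  obtain ⟨r, s, hr, hs, hrs⟩ := hK 2 (by norm_num)
  rw [flag_top v hv, inf_top_eq] at hr
  have hr2 : 2 ≤ r := by
    by_contra hcon
    have h1 := comm_of_rank hr (by omega) u0_mem u1_mem
    have h2 := congrArg φ h1
    rw [map_mul, map_mul, φ_u0, φ_u1] at h2
    exact absurd h2 (by decide +kernel)
  obtain ⟨e⟩ := hs
  let i0 : Fin s := ⟨0, by omega⟩
  let f : ↥(KE ⊓ flag v 2) →* M :=
    (FreeGroup.lift (fun _ => Multiplicative.ofAdd 1)).comp e.toMonoidHom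
  obtain ⟨f', hf'⟩ := extend_hom v hv {k | (k : ℕ) < 2} KE (flag v 2) rfl f
  let d := e.symm (FreeGroup.of i0)
  have hfd : f d = Multiplicative.ofAdd 1 := by
    show FreeGroup.lift _ (e (e.symm (FreeGroup.of i0))) = _
    rw [MulEquiv.apply_symm_apply, FreeGroup.lift_apply_of]
  have h1 := hf' d d.2
  have h2 := key hv f' d d.2.1 d.2.2
  rw [h2] at h1
  have h3 : f ⟨d, d.2⟩ = Multiplicative.ofAdd 1 := hfd
  rw [h3] at h1
  exact absurd h1 (by decide)

/-- There are an echelon subgroup `H` of the free group of rank two and a finitely generated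
subgroup `G` such that `H ∩ G` is not an echelon subgroup of `G`. -/
theorem result : ∃ H G : Subgroup (FreeGroup (Fin 2)),
    Echelon H ∧ G.FG ∧ ¬ Echelon (H.subgroupOf G) := by
  refine ⟨H, G, H_echelon, ?_, ?_⟩
  · exact (Group.fg_iff_subgroup_fg _).1 (Group.fg_range φ)
  · intro h
    let τ : G ≃* E := (MonoidHom.ofInjective φ_inj).symm
    have h1 := echelon_of_equiv τ _ h
    have h2 : (H.subgroupOf G).map τ.toMonoidHom = KE := by
      ext g
      constructor
      · rintro ⟨k, hk, rfl⟩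
        show φ (τ k) ∈ H
        have h3 : φ (τ k) = k := by
          have := (MonoidHom.ofInjective φ_inj).apply_symm_apply k
          exact congrArg Subtype.val this
        rw [h3]
        exact hk
      · intro hg
        refine ⟨(MonoidHom.ofInjective φ_inj) g, hg, ?_⟩
        exact (MonoidHom.ofInjective φ_inj).symm_apply_apply g
    rw [h2] at h1
    exact KE_not_echelon h1

end Pool.Agent.Results.MP_3ccc78_al.NotEchelon
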